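import Pool.Agent.V5helper49.IR.Stm

/-!
# Project IR, job INF: infinitely many good scales
-/

set_option autoImplicit false

universe u

namespace Pool.Agent.V5helper7.IR

open Finset MeasureTheory ProbabilityTheory Filter Topology
open Pool.Agent.V5helper49.IR

open Classical in
/-- Markov's inequality for the number of elements -/
theorem markov {Ω : Type u} [MeasurableSpace Ω] (μ : Measure Ω) [IsProbabilityMeasure μ] (A : Ω → Set ℕ)
    (hA : ∀ n, MeasurableSet {ω | n ∈ A ω}) (M : ℕ) (t : ℝ) (ht : 0 < t) :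
    μ.real {ω | t < (((range M).filter (fun k => k ∈ A ω)).card : ℝ)} ≤
      (∑ k ∈ range M, μ.real {ω | k ∈ A ω}) / t := by
  set f : Ω → ℝ := fun ω => ∑ k ∈ range M, Set.indicator {ω | k ∈ A ω} (1 : Ω → ℝ) ω with hf
  have hfe : ∀ ω, f ω = (((range M).filter (fun k => k ∈ A ω)).card : ℝ) := by
    intro ω
    rw [hf, Finset.card_filter]
    push_cast
    refine Finset.sum_congr rfl fun k _ => ?_
    by_cases h : k ∈ A ω
    · rw [Set.indicator_of_mem (show ω ∈ {ω | k ∈ A ω} from h), if_pos h]; rfl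
    · rw [Set.indicator_of_notMem (show ω ∉ {ω | k ∈ A ω} from h), if_neg h]
  have hint : ∀ k ∈ range M, Integrable (Set.indicator {ω | k ∈ A ω} (1 : Ω → ℝ)) μ := fun k _ =>
    (integrable_const (1 : ℝ)).indicator (hA k)
  have hI : Integrable f μ := integrable_finsetSum _ hint
  have hval : ∫ ω, f ω ∂μ = ∑ k ∈ range M, μ.real {ω | k ∈ A ω} := by
    rw [hf, integral_finsetSum _ hint]
    exact Finset.sum_congr rfl fun k _ => integral_indicator_one (hA k)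
  have h0 : 0 ≤ᵐ[μ] f := Eventually.of_forall fun ω => by
    rw [hfe]; exact Nat.cast_nonneg _
  have h1 := mul_meas_ge_le_integral_of_nonneg h0 hI t
  rw [hval] at h1
  rw [le_div_iff₀ ht, mul_comm]
  refine le_trans (mul_le_mul_of_nonneg_left ?_ ht.le) h1
  refine measureReal_mono ?_
  intro ω hω
  show t ≤ f ω
  rw [hfe]
  exact le_of_lt hω

theorem sqrt_bound {κ c : ℝ} (hκ : 0 < κ) (hc : 0 < c) {N : ℕ} (hN : 1 ≤ N) :
    c * Real.sqrt (N * Real.log N) / (N : ℝ) ^ (1 / 2 + κ) ≤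
      c / Real.sqrt κ * (N : ℝ) ^ (-(κ / 2)) := by
  have hN' : (0 : ℝ) < N := by exact_mod_cast hN
  have h1 : Real.log N ≤ (N : ℝ) ^ κ / κ := Real.log_le_rpow_div hN'.le hκ
  have h2 : (N : ℝ) * Real.log N ≤ (N : ℝ) ^ (1 + κ) / κ := by
    calc (N : ℝ) * Real.log N ≤ N * ((N : ℝ) ^ κ / κ) := mul_le_mul_of_nonneg_left h1 hN'.le
      _ = (N : ℝ) ^ (1 + κ) / κ := by rw [Real.rpow_add hN', Real.rpow_one]; ring
  have h3 : Real.sqrt (N * Real.log N) ≤ (N : ℝ) ^ ((1 + κ) / 2) / Real.sqrt κ := by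
    calc Real.sqrt (N * Real.log N) ≤ Real.sqrt ((N : ℝ) ^ (1 + κ) / κ) := Real.sqrt_le_sqrt h2
      _ = (N : ℝ) ^ ((1 + κ) / 2) / Real.sqrt κ := by
          rw [Real.sqrt_div (by positivity), Real.sqrt_eq_rpow ((N : ℝ) ^ (1 + κ)),
            ← Real.rpow_mul hN'.le]
          congr 2
          ring
  have hp : 0 < (N : ℝ) ^ (1 / 2 + κ) := Real.rpow_pos_of_pos hN' _
  rw [div_le_iff₀ hp]
  have hs : 0 < Real.sqrt κ := Real.sqrt_pos.2 hκ
  have h4 : (N : ℝ) ^ (-(κ / 2)) * (N : ℝ) ^ (1 / 2 + κ) = (N : ℝ) ^ ((1 + κ) / 2) := by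
    rw [← Real.rpow_add hN']
    congr 1
    ring
  rw [mul_assoc, h4]
  calc c * Real.sqrt (N * Real.log N) ≤ c * ((N : ℝ) ^ ((1 + κ) / 2) / Real.sqrt κ) :=
        mul_le_mul_of_nonneg_left h3 hc.le
    _ = c / Real.sqrt κ * (N : ℝ) ^ ((1 + κ) / 2) := by ring

theorem tendsto_b (κ C : ℝ) (hκ : 0 < κ) :
    Tendsto (fun N : ℕ => (N : ℝ) ^ (-(1 / 4) : ℝ) + C * (N : ℝ) ^ (-(κ / 2))) atTop (𝓝 0) := by
  have h1 : Tendsto (fun N : ℕ => (N : ℝ) ^ (-(1 / 4) : ℝ)) atTop (𝓝 0) :=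
    (tendsto_rpow_neg_atTop (by norm_num)).comp tendsto_natCast_atTop_atTop
  have h2 : Tendsto (fun N : ℕ => (N : ℝ) ^ (-(κ / 2))) atTop (𝓝 0) :=
    (tendsto_rpow_neg_atTop (by positivity)).comp tendsto_natCast_atTop_atTop
  simpa using h1.add (h2.const_mul C)

open Classical in
theorem t_INF (hSCL : S_SCL) (hTRF : S_TRF.{u}) : S_INF.{u} := by
  intro δ η κ hδ hη hκ hκ1
  obtain ⟨c, hc, N₀, hs⟩ := hSCL δ η κ hδ hη hκ hκ1
  refine ⟨c, hc, ?_⟩
  intro Ω _ μ _ A hA hind hev hfr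
  set p : ℕ → ℝ := fun n => μ.real {ω | n ∈ A ω} with hp
  have hp01 : ∀ k, 0 ≤ p k ∧ p k ≤ 1 := fun k => ⟨measureReal_nonneg, measureReal_le_one⟩
  set G : ℕ → Ω → Prop := fun N ω =>
    (N : ℝ) ^ (1 - κ) ≤ (((range (N + 1)).filter (fun n : ℕ => η * N / 4 < (n : ℝ) ∧
      ∀ a ∈ A ω, ∀ b ∈ A ω, a + b ≠ n)).card : ℝ) ∧
    (((range (N + 1)).filter (fun k => k ∈ A ω)).card : ℝ) ≤ (N : ℝ) ^ (1 / 2 + κ) with hG
  -- the bound for one good `N`
  have hbad : ∀ N : ℕ, N₀ ≤ N → 1 ≤ N →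
      ∑ k ∈ range (N + 1), p k ≤ c * Real.sqrt (N * Real.log N) →
      η * N ≤ (((range (N + 1)).filter (fun n => ∀ k ≤ n, p k ≤ 1 - δ ∨ p (n - k) ≤ 1 - δ)).card : ℝ) →
      μ.real {ω | ¬ G N ω} ≤ (N : ℝ) ^ (-(1 / 4) : ℝ) + c / Real.sqrt κ * (N : ℝ) ^ (-(κ / 2)) := by
    intro N hN₀ hN1 h1 h2
    have h3 := hs N hN₀ p hp01 h1 h2
    set Q : Finset ℕ → Prop := fun B =>
      (((range (N + 1)).filter (fun n : ℕ => η * N / 4 < (n : ℝ) ∧ Zr n B)).card : ℝ) <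
        (N : ℝ) ^ (1 - κ) with hQ
    have h4 := (hTRF μ A hA hind (N + 1) Q).2
    have h5 : μ.real {ω | Q ((range (N + 1)).filter (fun k => k ∈ A ω))} ≤
        (N : ℝ) ^ (-(1 / 4) : ℝ) := by
      rw [h4]
      refine le_of_eq_of_le ?_ h3
      congr 1
    have hN' : (0 : ℝ) < N := by exact_mod_cast hN1
    have ht : 0 < (N : ℝ) ^ (1 / 2 + κ) := Real.rpow_pos_of_pos hN' _
    have h6 := markov μ A hA (N + 1) _ ht
    have h7 : (∑ k ∈ range (N + 1), p k) / (N : ℝ) ^ (1 / 2 + κ) ≤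
        c / Real.sqrt κ * (N : ℝ) ^ (-(κ / 2)) :=
      (div_le_div_of_nonneg_right h1 ht.le).trans (sqrt_bound hκ hc hN1)
    have hsub : {ω | ¬ G N ω} ⊆ {ω | Q ((range (N + 1)).filter (fun k => k ∈ A ω))} ∪
        {ω | (N : ℝ) ^ (1 / 2 + κ) < (((range (N + 1)).filter (fun k => k ∈ A ω)).card : ℝ)} := by
      intro ω hω
      rcases lt_or_ge ((N : ℝ) ^ (1 / 2 + κ))
        (((range (N + 1)).filter (fun k => k ∈ A ω)).card : ℝ) with h | h
      · exact Or.inr h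
      · left
        show Q _
        have h8 : ¬ (N : ℝ) ^ (1 - κ) ≤ (((range (N + 1)).filter (fun n : ℕ => η * N / 4 < (n : ℝ) ∧
            ∀ a ∈ A ω, ∀ b ∈ A ω, a + b ≠ n)).card : ℝ) := fun h' => hω ⟨h', h⟩
        rw [not_le] at h8
        refine lt_of_le_of_lt ?_ h8
        refine Nat.cast_le.2 (Finset.card_le_card ?_)
        intro n hn
        rw [Finset.mem_filter] at hn ⊢
        refine ⟨hn.1, hn.2.1, fun a ha b hb hab => ?_⟩
        have hnN := Finset.mem_range.1 hn.1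
        refine hn.2.2 a ?_ b ?_ hab
        · rw [Finset.mem_filter, Finset.mem_range]
          exact ⟨by omega, ha⟩
        · rw [Finset.mem_filter, Finset.mem_range]
          exact ⟨by omega, hb⟩
    calc μ.real {ω | ¬ G N ω} ≤ _ := measureReal_mono hsub
      _ ≤ _ := measureReal_union_le _ _
      _ ≤ _ := add_le_add h5 (h6.trans h7)
  -- almost surely infinitely often
  have hnull : ∀ N₁ : ℕ, μ {ω | ∀ N ≥ N₁, ¬ G N ω} = 0 := by
    intro N₁
    rw [← measureReal_eq_zero_iff]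
    refine le_antisymm (le_of_forall_pos_le_add fun ε hε => ?_) measureReal_nonneg
    rw [zero_add]
    have hb : ∀ᶠ N : ℕ in atTop,
        (N : ℝ) ^ (-(1 / 4) : ℝ) + c / Real.sqrt κ * (N : ℝ) ^ (-(κ / 2)) < ε :=
      (tendsto_b κ _ hκ).eventually (gt_mem_nhds hε)
    obtain ⟨N, hN1, hN2, hN3, hN4, hN5⟩ := (hfr.and_eventually (hev.and (hb.and
      ((eventually_ge_atTop N₀).and (eventually_ge_atTop (max 1 N₁)))))).exists
    have h1 := hbad N hN4 ((le_max_left _ _).trans hN5) hN1 hN2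
    have h2 : μ.real {ω | ∀ N ≥ N₁, ¬ G N ω} ≤ μ.real {ω | ¬ G N ω} :=
      measureReal_mono fun ω hω => hω N ((le_max_right _ _).trans hN5)
    linarith
  have hall : ∀ᵐ ω ∂μ, ∀ N₁ : ℕ, ¬ ∀ N ≥ N₁, ¬ G N ω := by
    rw [ae_all_iff]
    intro N₁
    rw [ae_iff]
    simpa using hnull N₁
  filter_upwards [hall] with ω hω
  rw [frequently_atTop]
  intro N₁
  have := hω N₁
  push Not at this
  obtain ⟨N, hN, h⟩ := this
  exact ⟨N, hN, h⟩

end Pool.Agent.V5helper7.IR
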